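import Pool.Agent.Helper608.Final
import Pool.Agent.Helper608.AreaEx

open Set MeasureTheory
open scoped Manifold ContDiff InnerProductSpace

namespace Pool.Agent.Results.MP_a07190_gt.SmallVolume

/-- The Euclidean plane. -/
abbrev E2 := EuclideanSpace ℝ (Fin 2)

/-- Euclidean three-space. -/
abbrev E3 := EuclideanSpace ℝ (Fin 3)

/-- The plane `P = {x₃ = 0}` of three-space, parametrised by `ℝ²`. -/
def inclP (x : E2) : E3 := !₂[x 0, x 1, 0]

/-- `C ⊆ ℝ²` is a simple closed convex curve with interior `D`: the set `D` is open, convex,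
bounded and nonempty, and `C` is its topological boundary. -/
structure IsConvexCurve (C D : Set E2) : Prop where
  isOpen : IsOpen D
  convex : Convex ℝ D
  isBounded : Bornology.IsBounded D
  nonempty : D.Nonempty
  frontier_eq : frontier D = C

/-- The dot product of `ℝ³`. -/
noncomputable def dot (x y : E3) : ℝ := ⟪x, y⟫_ℝ

section Surface

variable {M : Type*} [TopologicalSpace M] [ChartedSpace (EuclideanHalfSpace 2) M]

/-- The map `f` from the surface with boundary `M` to `ℝ³` is smooth (up to the boundary). -/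
def IsSmooth (f : M → E3) : Prop := ContMDiff (𝓡∂ 2) 𝓘(ℝ, E3) ∞ f

/-- The tangent plane of the surface with boundary `M` at `p`. -/
abbrev Tan (p : M) := TangentSpace (𝓡∂ 2) p

/-- The differential of `f : M → ℝ³` at `p`, a linear map from the tangent plane, which is the
space `ℝ²` (identified by the preferred chart at `p`), to `ℝ³`. -/
noncomputable def diffL (f : M → E3) (p : M) : E2 →L[ℝ] E3 := mfderiv (𝓡∂ 2) 𝓘(ℝ, E3) f p

/-- The differential of `f : M → ℝ³` at `p`, applied to the tangent vector `v`. -/
noncomputable def dmap (f : M → E3) (p : M) (v : Tan p) : E3 := diffL f p v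

/-- The boundary of the surface with boundary `M`. -/
def bdry (M : Type*) [TopologicalSpace M] [ChartedSpace (EuclideanHalfSpace 2) M] : Set M :=
  (𝓡∂ 2).boundary M

/-- `v`, `w` is an orthonormal basis of the tangent plane at `p` for the metric induced by `f`. -/
def IsOrthonormal (f : M → E3) (p : M) (v w : Tan p) : Prop :=
  dot (dmap f p v) (dmap f p v) = 1 ∧ dot (dmap f p w) (dmap f p w) = 1 ∧
    dot (dmap f p v) (dmap f p w) = 0

/-- `f : M → ℝ³` is a smooth immersion of the surface with boundary `M`, with smooth unit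
normal field `N`, whose mean curvature (with respect to `N`) is the constant `H`. The mean
curvature at `p` is `-1/2` times the trace of the derivative of `N`, computed in a basis of
`T_p M` orthonormal for the induced metric. -/
structure IsCMCImmersion (f N : M → E3) (H : ℝ) : Prop where
  smooth_map : IsSmooth f
  immersion : ∀ p : M, Function.Injective (dmap f p)
  smooth_normal : IsSmooth N
  norm_normal : ∀ p : M, dot (N p) (N p) = 1
  inner_normal : ∀ (p : M) (v : Tan p), dot (N p) (dmap f p v) = 0
  mean_curvature : ∀ (p : M) (v w : Tan p), IsOrthonormal f p v w →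
    -(dot (dmap N p v) (dmap f p v) + dot (dmap N p w) (dmap f p w)) / 2 = H

/-- The immersion `f` maps the boundary of `M` bijectively onto the set `C` of the plane `P`. -/
def BoundaryIs (f : M → E3) (C : Set E2) : Prop :=
  InjOn f (bdry M) ∧ f '' bdry M = inclP '' C

/-- The chart `φ` of `M`, as a map to the closed half plane `{z₀ ≥ 0}` of `ℝ²`. -/
noncomputable def coord (φ : OpenPartialHomeomorph M (EuclideanHalfSpace 2)) : M → E2 :=
  φ.extend (𝓡∂ 2)

/-- The map `f` read in the chart `φ`, that is `f ∘ φ⁻¹`. -/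
noncomputable def readIn (φ : OpenPartialHomeomorph M (EuclideanHalfSpace 2)) (f : M → E3) :
    E2 → E3 := f ∘ (φ.extend (𝓡∂ 2)).symm

/-- The partial derivative `∂ᵢ (f ∘ φ⁻¹)` (one-sided at the boundary of the half plane). -/
noncomputable def chartPartial (φ : OpenPartialHomeomorph M (EuclideanHalfSpace 2))
    (f : M → E3) (i : Fin 2) (z : E2) : E3 :=
  fderivWithin ℝ (readIn φ f) {z | 0 ≤ z 0} z (EuclideanSpace.single i 1)

/-- The area element `√(|∂₀g|²|∂₁g|² - ⟨∂₀g, ∂₁g⟩²)` of `f` in the chart `φ`, `g = f ∘ φ⁻¹`. -/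
noncomputable def areaDensity (φ : OpenPartialHomeomorph M (EuclideanHalfSpace 2))
    (f : M → E3) (z : E2) : ℝ :=
  Real.sqrt (dot (chartPartial φ f 0 z) (chartPartial φ f 0 z) *
    dot (chartPartial φ f 1 z) (chartPartial φ f 1 z) -
    dot (chartPartial φ f 0 z) (chartPartial φ f 1 z) ^ 2)

/-- `μ` is the area measure of the metric induced on `M` by `f`: in every chart of the
atlas it has the density `areaDensity` with respect to Lebesgue measure. -/
def IsAreaMeasure [MeasurableSpace M] (f : M → E3) (μ : Measure M) : Prop :=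
  ∀ φ ∈ atlas (EuclideanHalfSpace 2) M, ∀ s : Set M, MeasurableSet s → s ⊆ φ.source →
    μ s = ∫⁻ z in coord φ '' s, ENNReal.ofReal (areaDensity φ f z)

/-- The volume `(1/3) |∫ ⟨p, N⟩ dA|`. -/
noncomputable def volume' [MeasurableSpace M] (f N : M → E3) (μ : Measure M) : ℝ :=
  (1 / 3) * |∫ p, dot (f p) (N p) ∂μ|

lemma readIn_eq (φ : OpenPartialHomeomorph M (EuclideanHalfSpace 2)) (f : M → E3) :
    chartPartial φ f = Helper608.chartPartial φ f := by
  funext i z
  unfold chartPartial Helper608.chartPartial readIn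
  rw [Helper608.range_I]
  rfl

lemma areaDensity_eq (φ : OpenPartialHomeomorph M (EuclideanHalfSpace 2)) (f : M → E3) :
    areaDensity φ f = Helper608.areaDensity φ f := by
  funext z
  unfold areaDensity Helper608.areaDensity dot
  rw [readIn_eq, real_inner_self_eq_norm_sq, real_inner_self_eq_norm_sq]

lemma isAreaMeasure_iff [MeasurableSpace M] (f : M → E3) (μ : Measure M) :
    IsAreaMeasure f μ ↔ Helper608.IsAreaMeasure f μ := by
  unfold IsAreaMeasure Helper608.IsAreaMeasure coord
  simp only [areaDensity_eq]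

lemma IsCMCImmersion.toOld {f N : M → E3} {H : ℝ} (h : IsCMCImmersion f N H) :
    Helper608.IsCMCImmersion f N H := by
  refine ⟨h.smooth_map, h.immersion, h.smooth_normal, ?_, h.inner_normal, ?_⟩
  · intro p
    have h1 := h.norm_normal p
    unfold dot at h1
    rw [real_inner_self_eq_norm_sq] at h1
    nlinarith [norm_nonneg (N p)]
  · intro p v w hv hw hvw
    apply h.mean_curvature p v w
    refine ⟨?_, ?_, hvw⟩
    · unfold dot
      rw [real_inner_self_eq_norm_sq]
      have : ‖dmap f p v‖ = 1 := hv
      rw [this]; norm_num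
    · unfold dot
      rw [real_inner_self_eq_norm_sq]
      have : ‖dmap f p w‖ = 1 := hw
      rw [this]; norm_num

end Surface

/-- Sanity check: every smooth map from a compact surface with boundary has an area measure
(it is used to state the volume in `result`). -/
theorem areaMeasure_exists {M : Type*} [TopologicalSpace M] [T2Space M] [CompactSpace M]
    [ChartedSpace (EuclideanHalfSpace 2) M] [IsManifold (𝓡∂ 2) ∞ M] [MeasurableSpace M]
    [BorelSpace M] (f : M → E3) (hf : IsSmooth f) : ∃ μ : Measure M, IsAreaMeasure f μ := by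
  obtain ⟨μ, hμ⟩ := Helper608.exists_isAreaMeasure f hf
  exact ⟨μ, (isAreaMeasure_iff f μ).mpr hμ⟩

/-- Let `C₁`, `C₂` be simple closed convex curves of the plane `P = {x₃ = 0}` whose interiors
`D₁`, `D₂` are disjoint. There is `V₀ > 0` such that every compact immersed surface of constant
mean curvature with boundary `C₁ ∪ C₂` and algebraic volume less than `V₀` is disconnected. -/
theorem result (C₁ C₂ D₁ D₂ : Set E2) (h₁ : IsConvexCurve C₁ D₁) (h₂ : IsConvexCurve C₂ D₂)
    (hD : Disjoint D₁ D₂) :
    ∃ V₀ : ℝ, 0 < V₀ ∧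
      ∀ (M : Type*) [TopologicalSpace M] [T2Space M] [CompactSpace M]
        [ChartedSpace (EuclideanHalfSpace 2) M] [IsManifold (𝓡∂ 2) ∞ M]
        [MeasurableSpace M] [BorelSpace M] (μ : Measure M) (f N : M → E3) (H : ℝ),
        IsCMCImmersion f N H → IsAreaMeasure f μ → BoundaryIs f (C₁ ∪ C₂) →
        volume' f N μ < V₀ → ¬ ConnectedSpace M ∧ ¬ IsConnected (range f) := by
  obtain ⟨V₀, hV₀, h⟩ := Helper608.main_thm C₁ C₂ D₁ D₂
    ⟨h₁.isOpen, h₁.convex, h₁.isBounded, h₁.nonempty, h₁.frontier_eq⟩
    ⟨h₂.isOpen, h₂.convex, h₂.isBounded, h₂.nonempty, h₂.frontier_eq⟩ hD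
  refine ⟨V₀, hV₀, ?_⟩
  intro M _ _ _ _ _ _ _ μ f N H hf hμ hb hV
  exact h M μ f N H hf.toOld ((isAreaMeasure_iff f μ).mp hμ) hb.1 hb.2 hV

end Pool.Agent.Results.MP_a07190_gt.SmallVolume
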